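import Pool.Agent.Helper34.KV.V4
import Pool.Agent.Helper91.KF.F7

set_option autoImplicit false

/-!
The cubic families as valid inequalities for optimal weighted 3-graphs.
-/

namespace KC

open KF Finset

theorem list_range {α : Type} {R : Type} [AddCommMonoid R] (f : α → R) (d : α) (hd : f d = 0) :
    ∀ (l : List α) (K : Nat), l.length ≤ K → (l.map f).sum = ∑ k ∈ range K, f (l.getD k d)
  | [], K, _ => by simp [hd]
  | a :: l, 0, h => by simp at h
  | a :: l, K + 1, h => by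
    rw [Finset.sum_range_succ', List.map_cons, List.sum_cons,
      list_range f d hd l K (by simpa using h), add_comm]
    simp

/-- Value of one term. -/
def tv (p q i : Nat) (a b c : Nat) (k : Nat × Nat × Nat) : ℤ :=
  kv p q i (k.2.2 * fR (tb k.2.1 a) (tb k.1 a) (tb k.2.1 b) (tb k.1 b) (tb k.2.1 c) (tb k.1 c))
    (k.2.2 * fT (tb k.2.1 a) (tb k.1 a) (tb k.2.1 b) (tb k.1 b) (tb k.2.1 c) (tb k.1 c))
    (k.2.2 * fP (tb k.2.1 a) (tb k.1 a) (tb k.2.1 b) (tb k.1 b) (tb k.2.1 c) (tb k.1 c))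

theorem kv_add (p q i R T P R' T' P' : Nat) :
    kv p q i (R + R') (T + T') (P + P') = kv p q i R T P + kv p q i R' T' P' := by
  unfold kv
  split_ifs <;> push_cast <;> ring

theorem kv_zero (p q i : Nat) : kv p q i 0 0 0 = 0 := by
  unfold kv
  split_ifs <;> simp

theorem LV_sum (p q i a b c : Nat) : ∀ l : List (Nat × Nat × Nat),
    LV p q i l a b c = (l.map (tv p q i a b c)).sum
  | [] => by
    unfold LV LX
    simp [kv_zero]
  | k :: l => by
    rw [List.map_cons, List.sum_cons, ← LV_sum p q i a b c l]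
    unfold LV LX tv
    simp only [List.map_cons, List.sum_cons]
    rw [kv_add]

namespace VTab

variable (T : VTab)

/-- Number of terms, an upper bound. -/
def KM : Nat := ∑ t ∈ range T.NT, (T.TM t).length

/-- The term number `k` for labelled roots. -/
def trm (k r : Nat) : Nat × Nat × Nat := (T.TM (T.ty r)).getD k (0, 0, 0)

/-- The multiplier. -/
noncomputable def mu (k r : Nat) : ℝ := if r < 16 then (((T.trm k r).2.2 : Nat) : ℝ) else 0
/-- The set `C`. -/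
noncomputable def Cf (k r p : Nat) : ℝ :=
  if r < 16 then ((tb (T.trm k r).1 (T.cx r p) : Nat) : ℝ) else 0
/-- The set `G`. -/
noncomputable def Gf (k r p : Nat) : ℝ :=
  if r < 16 then ((tb (T.trm k r).2.1 (T.cx r p) : Nat) : ℝ) else 0

/-- `G` is contained in `C`. -/
def ckG : Bool := (List.range T.NT).all fun t => (T.TM t).all fun k =>
  Nat.beq (Nat.land k.2.1 k.1) k.2.1

variable {T}

theorem gc_trm (h : T.Good) (hG : T.ckG = true) {k r : Nat} (hr : r < 16) (a : Nat) :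
    tb (T.trm k r).2.1 a ≤ tb (T.trm k r).1 a := by
  have key : (T.trm k r).2.1 &&& (T.trm k r).1 = (T.trm k r).2.1 := by
    unfold trm
    by_cases hk : k < (T.TM (T.ty r)).length
    · rw [List.getD_eq_getElem _ _ hk]
      simp only [ckG, List.all_eq_true, List.mem_range] at hG
      exact Nat.eq_of_beq_eq_true (hG _ (h.tyr hr) _ (List.getElem_mem hk))
    · rw [List.getD_eq_default _ _ (by omega)]
      rfl
  unfold tb
  rw [← key, Nat.testBit_land]
  cases (T.trm k r).2.1.testBit a <;> cases (T.trm k r).1.testBit a <;> simp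

theorem mu_nonneg (k r : Nat) : 0 ≤ T.mu k r := by
  unfold mu; split_ifs <;> positivity

theorem Gf_nonneg (k r p : Nat) : 0 ≤ T.Gf k r p := by
  unfold Gf; split_ifs <;> positivity

theorem Gf_le (h : T.Good) (hG : T.ckG = true) (k r p : Nat) : T.Gf k r p ≤ T.Cf k r p := by
  unfold Gf Cf
  split_ifs with hr
  · exact_mod_cast gc_trm h hG hr _
  · exact le_refl _

theorem Cf_le (k r p : Nat) : T.Cf k r p ≤ 1 := by
  unfold Cf
  split_ifs
  · exact_mod_cast tb_le _ _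
  · norm_num

theorem tv_zero (p q i a b c : Nat) : tv p q i a b c (0, 0, 0) = 0 := by
  unfold tv
  simp [kv_zero]

theorem len_le (h : T.Good) {r : Nat} (hr : r < 16) : (T.TM (T.ty r)).length ≤ T.KM :=
  Finset.single_le_sum (f := fun t => (T.TM t).length) (fun _ _ => Nat.zero_le _)
    (Finset.mem_range.2 (h.tyr hr))

theorem GX_real (h : T.Good) (i m : Nat) : ((T.GX i m : ℤ) : ℝ) =
    ∑ k ∈ range T.KM, ((tv T.PA T.PB i (T.cx (r4 m) (pa m)) (T.cx (r4 m) (pb m))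
      (T.cx (r4 m) (pc m)) (T.trm k (r4 m)) : ℤ) : ℝ) := by
  rw [GX, LV_sum, list_range _ (0, 0, 0) (tv_zero _ _ _ _ _ _) _ T.KM (len_le h (r4_lt m))]
  push_cast
  rfl

theorem tvr (p q : Nat) (hp : (p : ℝ) ≠ 0) (μ ga ca gb cb gc cc : Nat) (e : Bool) :
    ((kv p q e.toNat (μ * fR ga ca gb cb gc cc) (μ * fT ga ca gb cb gc cc)
      (μ * fP ga ca gb cb gc cc) : ℤ) : ℝ) =
    (p : ℝ) * ((μ : ℝ) * (
      (ga : ℝ) * (((cb : ℝ) + cc - cb * cc) * b2r e - (q : ℝ) / p * (cb * cc)) +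
      (gb : ℝ) * (((ca : ℝ) + cc - ca * cc) * b2r e - (q : ℝ) / p * (ca * cc)) +
      (gc : ℝ) * (((ca : ℝ) + cb - ca * cb) * b2r e - (q : ℝ) / p * (ca * cb)) +
      (ca : ℝ) * cb * cc * ((q : ℝ) / p - b2r e))) := by
  cases e
  · unfold kv fR fT fP b2r
    simp only [Bool.toNat_false, if_true, Bool.false_eq_true, if_false]
    push_cast
    field_simp
    ring
  · unfold kv fR fT fP b2r
    simp only [Bool.toNat_true, one_ne_zero, if_true, if_false]
    push_cast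
    field_simp
    ring

theorem tv_gV (hA : 0 < T.PA) (k m : Nat) :
    ((tv T.PA T.PB (m.testBit 34).toNat (T.cx (r4 m) (pa m)) (T.cx (r4 m) (pb m))
      (T.cx (r4 m) (pc m)) (T.trm k (r4 m)) : ℤ) : ℝ) =
    (T.PA : ℝ) * gV (T.mu k) (T.Gf k) (T.Cf k) ((T.PB : ℝ) / T.PA) m := by
  have hA' : (T.PA : ℝ) ≠ 0 := by positivity
  have hr : m % 16 < 16 := Nat.mod_lt _ (by norm_num)
  unfold gV
  simp only [mu, Gf, Cf, if_pos hr]
  exact tvr T.PA T.PB hA' _ _ _ _ _ _ _ _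

theorem tv_dV (p q k m : Nat) :
    ((tv p q 2 (T.cx (r4 m) (pa m)) (T.cx (r4 m) (pb m))
      (T.cx (r4 m) (pc m)) (T.trm k (r4 m)) : ℤ) : ℝ) =
    dV (T.mu k) (T.Gf k) (T.Cf k) m := by
  have hr : m % 16 < 16 := Nat.mod_lt _ (by norm_num)
  have key : ∀ μ ga ca gb cb gc cc : Nat, ((kv p q 2 (μ * fR ga ca gb cb gc cc)
      (μ * fT ga ca gb cb gc cc) (μ * fP ga ca gb cb gc cc) : ℤ) : ℝ) =
      (μ : ℝ) * ((ca : ℝ) * cb * cc - ga * (cb * cc) - gb * (ca * cc) - gc * (ca * cb)) := by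
    intro μ ga ca gb cb gc cc
    unfold kv fR fT
    rw [if_neg (by norm_num), if_neg (by norm_num)]
    push_cast
    ring
  unfold dV
  simp only [mu, Gf, Cf, if_pos hr]
  exact key _ _ _ _ _ _ _

theorem GV_real (h : T.Good) (hA : 0 < T.PA) (m : Nat) : ((T.GV m : ℤ) : ℝ) =
    (T.PA : ℝ) * ∑ k ∈ range T.KM, gV (T.mu k) (T.Gf k) (T.Cf k) ((T.PB : ℝ) / T.PA) m := by
  rw [GV, GX_real h, Finset.mul_sum]
  exact Finset.sum_congr rfl fun k _ => tv_gV hA k m

theorem GA_real (h : T.Good) (m : Nat) : ((T.GA m : ℤ) : ℝ) =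
    ∑ k ∈ range T.KM, dV (T.mu k) (T.Gf k) (T.Cf k) m := by
  rw [GA, GX_real h]
  exact Finset.sum_congr rfl fun k _ => tv_dV _ _ k m

/-- Bound for the multipliers. -/
noncomputable def MB (T : VTab) : ℝ := ∑ k ∈ range T.KM, ∑ r ∈ range 16, T.mu k r

theorem MB_nonneg (T : VTab) : 0 ≤ T.MB :=
  Finset.sum_nonneg fun _ _ => Finset.sum_nonneg fun _ _ => mu_nonneg _ _

section
variable {V : Type} [Fintype V]

/-- The inequality of the cubic families. -/
theorem ev_GV (h : T.Good) (hG : T.ckG = true) (hA : 0 < T.PA) {E : V → V → V → Bool} {w : V → ℝ}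
    (ho : Opt E w) :
    (T.PA : ℝ) * ((T.PB : ℝ) / T.PA - L) * Ev 7 w (fun φ => ((T.GA (msk E φ) : ℤ) : ℝ)) -
      2 * (T.PA : ℝ) * T.MB * (L - dens E w) ≤ Ev 7 w (fun φ => ((T.GV (msk E φ) : ℤ) : ℝ)) := by
  have hLd : 0 ≤ L - dens E w := by linarith [dens_le_L ho.free ho.wt]
  have e1 : Ev 7 w (fun φ => ((T.GV (msk E φ) : ℤ) : ℝ)) = (T.PA : ℝ) * ∑ k ∈ range T.KM,
      Ev 7 w (fun φ => gV (T.mu k) (T.Gf k) (T.Cf k) ((T.PB : ℝ) / T.PA) (msk E φ)) := by
    rw [← Ev_sum, ← Ev_mul]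
    exact Ev_congr 7 w fun φ => GV_real h hA _
  have e2 : Ev 7 w (fun φ => ((T.GA (msk E φ) : ℤ) : ℝ)) = ∑ k ∈ range T.KM,
      Ev 7 w (fun φ => dV (T.mu k) (T.Gf k) (T.Cf k) (msk E φ)) := by
    rw [← Ev_sum]
    exact Ev_congr 7 w fun φ => GA_real h _
  have e3 : ∀ k, Ev 7 w (fun φ => gV (T.mu k) (T.Gf k) (T.Cf k) ((T.PB : ℝ) / T.PA) (msk E φ)) =
      Ev 7 w (fun φ => gV (T.mu k) (T.Gf k) (T.Cf k) L (msk E φ)) +
      ((T.PB : ℝ) / T.PA - L) * Ev 7 w (fun φ => dV (T.mu k) (T.Gf k) (T.Cf k) (msk E φ)) := by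
    intro k
    rw [← Ev_mul, ← Ev_add]
    exact Ev_congr 7 w fun φ => gV_split _ _ _ _ _ _
  have e4 : ∀ k, -(2 * (L - dens E w)) * (∑ r ∈ range 16, T.mu k r) ≤
      Ev 7 w (fun φ => gV (T.mu k) (T.Gf k) (T.Cf k) L (msk E φ)) := by
    intro k
    refine le_trans ?_ (kcV ho (μ := T.mu k) (G := T.Gf k) (C := T.Cf k) (mu_nonneg k)
      (Gf_nonneg k) (Gf_le h hG k) (Cf_le k))
    have h1 : Ev 7 w (fun φ => T.mu k (msk E φ % 16)) ≤ ∑ r ∈ range 16, T.mu k r := by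
      have h2 := Ev_mono 7 w ho.wt.nn (f := fun φ => T.mu k (msk E φ % 16))
        (g := fun _ => ∑ r ∈ range 16, T.mu k r) (fun φ =>
          Finset.single_le_sum (f := fun r => T.mu k r) (fun r _ => mu_nonneg k r)
            (Finset.mem_range.2 (Nat.mod_lt _ (by norm_num))))
      rw [Ev_const 7 w ho.wt.one] at h2
      exact h2
    have := mul_le_mul_of_nonneg_left h1 hLd
    nlinarith
  rw [e1, e2]
  simp only [e3]
  have e5 := Finset.sum_le_sum (fun k (_ : k ∈ range T.KM) => e4 k)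
  rw [← Finset.mul_sum] at e5
  rw [Finset.sum_add_distrib, ← Finset.mul_sum]
  have hA' : (0 : ℝ) ≤ T.PA := by positivity
  have e6 := mul_le_mul_of_nonneg_left e5 hA'
  unfold MB
  nlinarith
end

end VTab

end KC
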