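import Pool.Agent.Helper13.KC.Eval

set_option autoImplicit false

/-!
Masks with four roots: root mask, patterns of the three free vertices, action of the swaps.
-/

namespace KC

/-- The mask of the four roots. -/
def r4 (m : Nat) : Nat := m % 16
/-- Pattern of vertex 4 on the pairs of the roots. -/
def pa (m : Nat) : Nat := m / 16 % 64
/-- Pattern of vertex 5. -/
def pb (m : Nat) : Nat := m / 2 ^ 10 % 64
/-- Pattern of vertex 6. -/
def pc (m : Nat) : Nat := m / 2 ^ 20 % 64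
/-- Action of a swap on patterns. -/
def tp (i l : Nat) : Nat := pa (tau i (l * 16))
/-- Action of a word on patterns. -/
def ap : List Nat → Nat → Nat
  | [], l => l
  | i :: w, l => ap w (tp i l)

theorem r4_bit (m t : Nat) (ht : t < 4) : (r4 m).testBit t = m.testBit t := by
  change (m % 2 ^ 4).testBit t = _
  rw [Nat.testBit_mod_two_pow]
  simp [ht]

theorem pa_bit (m t : Nat) (ht : t < 6) : (pa m).testBit t = m.testBit (4 + t) := by
  change (m / 2 ^ 4 % 2 ^ 6).testBit t = _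
  rw [Nat.testBit_mod_two_pow, ← Nat.shiftRight_eq_div_pow, Nat.testBit_shiftRight]
  simp [ht]

theorem pb_bit (m t : Nat) (ht : t < 6) : (pb m).testBit t = m.testBit (10 + t) := by
  change (m / 2 ^ 10 % 2 ^ 6).testBit t = _
  rw [Nat.testBit_mod_two_pow, ← Nat.shiftRight_eq_div_pow, Nat.testBit_shiftRight]
  simp [ht]

theorem pc_bit (m t : Nat) (ht : t < 6) : (pc m).testBit t = m.testBit (20 + t) := by
  change (m / 2 ^ 20 % 2 ^ 6).testBit t = _
  rw [Nat.testBit_mod_two_pow, ← Nat.shiftRight_eq_div_pow, Nat.testBit_shiftRight]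
  simp [ht]

theorem eqk {k a b : Nat} (ha : a < 2 ^ k) (hb : b < 2 ^ k)
    (h : ∀ t < k, a.testBit t = b.testBit t) : a = b := by
  refine Nat.eq_of_testBit_eq fun t => ?_
  by_cases ht : t < k
  · exact h t ht
  · rw [Nat.testBit_eq_false_of_lt (lt_of_lt_of_le ha
      (Nat.pow_le_pow_right (by norm_num) (by omega))),
      Nat.testBit_eq_false_of_lt (lt_of_lt_of_le hb
      (Nat.pow_le_pow_right (by norm_num) (by omega)))]

theorem r4_lt (m : Nat) : r4 m < 2 ^ 4 := Nat.mod_lt _ (by norm_num)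
theorem pa_lt (m : Nat) : pa m < 2 ^ 6 := Nat.mod_lt _ (by norm_num)
theorem pb_lt (m : Nat) : pb m < 2 ^ 6 := Nat.mod_lt _ (by norm_num)
theorem pc_lt (m : Nat) : pc m < 2 ^ 6 := Nat.mod_lt _ (by norm_num)

theorem ba4_r : ∀ i < 3, ∀ t < 4, ba i t < 4 := by decide +kernel

theorem ba4_p : ∀ i < 3, ∀ t < 6, 4 ≤ ba i (4 + t) ∧ ba i (4 + t) < 10 ∧
    ba i (10 + t) = 6 + ba i (4 + t) ∧ ba i (20 + t) = 16 + ba i (4 + t) := by decide +kernel

theorem ba4_34 : ∀ i < 3, ba i 34 = 34 := by decide +kernel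

theorem ba4_4 : (∀ t < 4, ba 4 t = t) ∧ (∀ t < 6, ba 4 (4 + t) = 10 + t ∧
    ba 4 (10 + t) = 4 + t ∧ ba 4 (20 + t) = 20 + t) ∧ ba 4 34 = 34 := by decide +kernel

theorem ba4_5 : (∀ t < 4, ba 5 t = t) ∧ (∀ t < 6, ba 5 (4 + t) = 4 + t ∧
    ba 5 (10 + t) = 20 + t ∧ ba 5 (20 + t) = 10 + t) ∧ ba 5 34 = 34 := by decide +kernel

theorem r4_tau (i m : Nat) (hi : i < 3) : r4 (tau i m) = r4 (tau i (r4 m)) := by
  refine eqk (r4_lt _) (r4_lt _) fun t ht => ?_
  rw [r4_bit _ _ ht, r4_bit _ _ ht, tau_bit _ _ _ (by omega) (by omega),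
    tau_bit _ _ _ (by omega) (by omega), r4_bit _ _ (ba4_r i hi t ht)]

theorem pa_tau (i m : Nat) (hi : i < 3) : pa (tau i m) = tp i (pa m) := by
  refine eqk (pa_lt _) (pa_lt _) fun t ht => ?_
  obtain ⟨h1, h2, -, -⟩ := ba4_p i hi t ht
  rw [pa_bit _ _ ht, tp, pa_bit _ _ ht, tau_bit _ _ _ (by omega) (by omega),
    tau_bit _ _ _ (by omega) (by omega)]
  obtain ⟨u, hu⟩ : ∃ u, ba i (4 + t) = 4 + u := ⟨ba i (4 + t) - 4, by omega⟩
  rw [hu, ← pa_bit _ _ (by omega : u < 6), show (16 : Nat) = 2 ^ 4 by norm_num,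
    Nat.testBit_mul_two_pow]
  simp

theorem pb_tau (i m : Nat) (hi : i < 3) : pb (tau i m) = tp i (pb m) := by
  refine eqk (pb_lt _) (pa_lt _) fun t ht => ?_
  obtain ⟨h1, h2, h3, -⟩ := ba4_p i hi t ht
  rw [pb_bit _ _ ht, tp, pa_bit _ _ ht, tau_bit _ _ _ (by omega) (by omega),
    tau_bit _ _ _ (by omega) (by omega), h3]
  obtain ⟨u, hu⟩ : ∃ u, ba i (4 + t) = 4 + u := ⟨ba i (4 + t) - 4, by omega⟩
  rw [hu, show 6 + (4 + u) = 10 + u by omega, ← pb_bit _ _ (by omega : u < 6),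
    show (16 : Nat) = 2 ^ 4 by norm_num, Nat.testBit_mul_two_pow]
  simp

theorem pc_tau (i m : Nat) (hi : i < 3) : pc (tau i m) = tp i (pc m) := by
  refine eqk (pc_lt _) (pa_lt _) fun t ht => ?_
  obtain ⟨h1, h2, -, h3⟩ := ba4_p i hi t ht
  rw [pc_bit _ _ ht, tp, pa_bit _ _ ht, tau_bit _ _ _ (by omega) (by omega),
    tau_bit _ _ _ (by omega) (by omega), h3]
  obtain ⟨u, hu⟩ : ∃ u, ba i (4 + t) = 4 + u := ⟨ba i (4 + t) - 4, by omega⟩
  rw [hu, show 16 + (4 + u) = 20 + u by omega, ← pc_bit _ _ (by omega : u < 6),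
    show (16 : Nat) = 2 ^ 4 by norm_num, Nat.testBit_mul_two_pow]
  simp

theorem b34_tau (i m : Nat) (hi : i < 3) : (tau i m).testBit 34 = m.testBit 34 := by
  rw [tau_bit _ _ _ (by omega) (by omega), ba4_34 i hi]

theorem r4_tau4 (m : Nat) : r4 (tau 4 m) = r4 m := by
  refine eqk (r4_lt _) (r4_lt _) fun t ht => ?_
  rw [r4_bit _ _ ht, r4_bit _ _ ht, tau_bit _ _ _ (by omega) (by omega), ba4_4.1 t ht]

theorem pa_tau4 (m : Nat) : pa (tau 4 m) = pb m := by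
  refine eqk (pa_lt _) (pb_lt _) fun t ht => ?_
  rw [pa_bit _ _ ht, pb_bit _ _ ht, tau_bit _ _ _ (by omega) (by omega), (ba4_4.2.1 t ht).1]

theorem pb_tau4 (m : Nat) : pb (tau 4 m) = pa m := by
  refine eqk (pb_lt _) (pa_lt _) fun t ht => ?_
  rw [pa_bit _ _ ht, pb_bit _ _ ht, tau_bit _ _ _ (by omega) (by omega), (ba4_4.2.1 t ht).2.1]

theorem pc_tau4 (m : Nat) : pc (tau 4 m) = pc m := by
  refine eqk (pc_lt _) (pc_lt _) fun t ht => ?_
  rw [pc_bit _ _ ht, pc_bit _ _ ht, tau_bit _ _ _ (by omega) (by omega), (ba4_4.2.1 t ht).2.2]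

theorem b34_tau4 (m : Nat) : (tau 4 m).testBit 34 = m.testBit 34 := by
  rw [tau_bit _ _ _ (by omega) (by omega), ba4_4.2.2]

theorem r4_tau5 (m : Nat) : r4 (tau 5 m) = r4 m := by
  refine eqk (r4_lt _) (r4_lt _) fun t ht => ?_
  rw [r4_bit _ _ ht, r4_bit _ _ ht, tau_bit _ _ _ (by omega) (by omega), ba4_5.1 t ht]

theorem pa_tau5 (m : Nat) : pa (tau 5 m) = pa m := by
  refine eqk (pa_lt _) (pa_lt _) fun t ht => ?_
  rw [pa_bit _ _ ht, pa_bit _ _ ht, tau_bit _ _ _ (by omega) (by omega), (ba4_5.2.1 t ht).1]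

theorem pb_tau5 (m : Nat) : pb (tau 5 m) = pc m := by
  refine eqk (pb_lt _) (pc_lt _) fun t ht => ?_
  rw [pb_bit _ _ ht, pc_bit _ _ ht, tau_bit _ _ _ (by omega) (by omega), (ba4_5.2.1 t ht).2.1]

theorem pc_tau5 (m : Nat) : pc (tau 5 m) = pb m := by
  refine eqk (pc_lt _) (pb_lt _) fun t ht => ?_
  rw [pc_bit _ _ ht, pb_bit _ _ ht, tau_bit _ _ _ (by omega) (by omega), (ba4_5.2.1 t ht).2.2]

theorem b34_tau5 (m : Nat) : (tau 5 m).testBit 34 = m.testBit 34 := by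
  rw [tau_bit _ _ _ (by omega) (by omega), ba4_5.2.2]

/-- All letters are below 3. -/
def w3 (l : List Nat) : Bool := l.all (fun i => Nat.blt i 3)

theorem w3_cons {i : Nat} {l : List Nat} : w3 (i :: l) = true ↔ i < 3 ∧ w3 l = true := by
  simp [w3, Nat.blt_eq]

theorem w3_wok : ∀ {l : List Nat}, w3 l = true → wok l = true
  | [], _ => rfl
  | _ :: _, h => wok_cons.2 ⟨by have := (w3_cons.1 h).1; omega, w3_wok (w3_cons.1 h).2⟩

theorem pa_awl : ∀ (l : List Nat) (m : Nat), w3 l = true → pa (awl l m) = ap l (pa m)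
  | [], _, _ => rfl
  | i :: l, m, h => by
    obtain ⟨h1, h2⟩ := w3_cons.1 h
    rw [awl, pa_awl l _ h2, pa_tau i m h1]; rfl

theorem pb_awl : ∀ (l : List Nat) (m : Nat), w3 l = true → pb (awl l m) = ap l (pb m)
  | [], _, _ => rfl
  | i :: l, m, h => by
    obtain ⟨h1, h2⟩ := w3_cons.1 h
    rw [awl, pb_awl l _ h2, pb_tau i m h1]; rfl

theorem pc_awl : ∀ (l : List Nat) (m : Nat), w3 l = true → pc (awl l m) = ap l (pc m)
  | [], _, _ => rfl
  | i :: l, m, h => by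
    obtain ⟨h1, h2⟩ := w3_cons.1 h
    rw [awl, pc_awl l _ h2, pc_tau i m h1]; rfl

theorem b34_awl : ∀ (l : List Nat) (m : Nat), w3 l = true →
    (awl l m).testBit 34 = m.testBit 34
  | [], _, _ => rfl
  | i :: l, m, h => by
    obtain ⟨h1, h2⟩ := w3_cons.1 h
    rw [awl, b34_awl l _ h2, b34_tau i m h1]

theorem ap_lt : ∀ (W : List Nat) {l : Nat}, l < 2 ^ 6 → ap W l < 2 ^ 6
  | [], _, h => h
  | _ :: W, _, _ => ap_lt W (pa_lt _)

end KC
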