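import Pool.Agent.Helper34.KV.V3

set_option autoImplicit false

/-!
Comparison of a packed number with a search tree; evaluation of the cubic families.
-/

namespace KC

/-- The leaves `lo, ..., hi - 1` of the tree are the consecutive blocks of `D` bits of `X`. -/
noncomputable def chkT (D : Nat) (t : BT) : Nat → Nat → Nat → Bool :=
  BT.rec (motive := fun _ => Nat → Nat → Nat → Bool)
    (fun v lo hi X => Bool.rec (motive := fun _ => Bool) false (Nat.beq v X)
      (Nat.beq hi (Nat.add lo 1)))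
    (fun k _ _ ia ib lo hi X =>
      Bool.rec (motive := fun _ => Bool) false
        (Bool.rec (motive := fun _ => Bool) false
          (Bool.rec (motive := fun _ => Bool) false
            (fc (Nat.shiftRight X (Nat.mul D (Nat.sub k lo))) fun Y => ib k hi Y)
            (fc (Nat.land X (Nat.sub (Nat.pow 2 (Nat.mul D (Nat.sub k lo))) 1)) fun Y => ia lo k Y))
          (Nat.blt k hi))
        (Nat.blt lo k)) t

theorem chkT_spec (D : Nat) : ∀ (t : BT) (lo hi X : Nat), chkT D t lo hi X = true →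
    ∀ i, lo ≤ i → i < hi → ∀ s < D, (t.get i).testBit s = X.testBit (D * (i - lo) + s)
  | .L v, lo, hi, X, h, i, h1, h2, s, _ => by
    change Bool.rec (motive := fun _ => Bool) false (Nat.beq v X)
      (Nat.beq hi (Nat.add lo 1)) = true at h
    cases hb : Nat.beq hi (Nat.add lo 1)
    · rw [hb] at h; exact absurd h (by simp)
    · rw [hb] at h
      have e1 := Nat.eq_of_beq_eq_true hb
      have e2 := Nat.eq_of_beq_eq_true h
      have e3 : i = lo := by
        simp only [Nat.add_eq] at e1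
        omega
      rw [BT.get_L, e2, e3, Nat.sub_self, Nat.mul_zero, Nat.zero_add]
  | .N k a b, lo, hi, X, h, i, h1, h2, s, hs => by
    change Bool.rec (motive := fun _ => Bool) false
        (Bool.rec (motive := fun _ => Bool) false
          (Bool.rec (motive := fun _ => Bool) false
            (fc (Nat.shiftRight X (Nat.mul D (Nat.sub k lo))) fun Y => chkT D b k hi Y)
            (fc (Nat.land X (Nat.sub (Nat.pow 2 (Nat.mul D (Nat.sub k lo))) 1)) fun Y =>
              chkT D a lo k Y))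
          (Nat.blt k hi))
        (Nat.blt lo k) = true at h
    rw [fc_eq, fc_eq] at h
    cases hb1 : Nat.blt lo k
    · rw [hb1] at h; exact absurd h (by simp)
    rw [hb1] at h
    cases hb2 : Nat.blt k hi
    · rw [hb2] at h; exact absurd h (by simp)
    rw [hb2] at h
    cases hb3 : chkT D a lo k (Nat.land X (Nat.sub (Nat.pow 2 (Nat.mul D (Nat.sub k lo))) 1))
    · rw [hb3] at h; exact absurd h (by simp)
    rw [hb3] at h
    have hlo : lo < k := Nat.blt_eq ▸ hb1
    have hhi : k < hi := Nat.blt_eq ▸ hb2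
    rw [BT.get_N]
    by_cases hik : k ≤ i
    · have e : Nat.ble k i = true := Nat.ble_eq ▸ hik
      rw [e, cond_true, chkT_spec D b k hi _ h i hik h2 s hs]
      change (X >>> (D * (k - lo))).testBit _ = _
      rw [Nat.testBit_shiftRight]
      congr 1
      have : i - lo = (k - lo) + (i - k) := by omega
      rw [this]; ring
    · have e : Nat.ble k i = false := by
        cases hb : Nat.ble k i
        · rfl
        · exact absurd (Nat.ble_eq ▸ hb : k ≤ i) hik
      rw [e, cond_false, chkT_spec D a lo k _ hb3 i h1 (by omega) s hs]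
      change (X &&& (2 ^ (D * (k - lo)) - 1)).testBit _ = _
      rw [Nat.and_two_pow_sub_one_eq_mod, Nat.testBit_mod_two_pow]
      have e2 : D * (i - lo) + s < D * (k - lo) := by
        calc D * (i - lo) + s < D * (i - lo) + D := by omega
          _ = D * (i - lo + 1) := by ring
          _ ≤ D * (k - lo) := Nat.mul_le_mul_left _ (by omega)
      simp [e2]

theorem pk_bit {T : BT} {W M hi X : Nat} (hM : M = 2 ^ W - 1)
    (h : chkT (16 * W) T 0 hi X = true) {i : Nat} (hi' : i < 16 * hi) {s : Nat} :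
    (pk T W M i).testBit s = (decide (s < W) && X.testBit (W * i + s)) := by
  unfold pk
  rw [hM]
  have e1 : Nat.land i 15 = i % 16 := land_mod i 4
  have e2 : Nat.shiftRight i 4 = i / 16 := shift_div i 4
  rw [e1, e2]
  change ((T.get (i / 16) >>> (W * (i % 16))) &&& (2 ^ W - 1)).testBit s = _
  rw [Nat.and_two_pow_sub_one_eq_mod, Nat.testBit_mod_two_pow]
  by_cases hs : s < W
  · rw [Nat.testBit_shiftRight, chkT_spec (16 * W) T 0 hi X h (i / 16) (Nat.zero_le _) (by omega)
      (W * (i % 16) + s)]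
    · congr 2
      have : i = 16 * (i / 16) + i % 16 := by omega
      conv_rhs => rw [this]
      rw [Nat.sub_zero]
      ring
    · calc W * (i % 16) + s < W * (i % 16) + W := by omega
        _ = W * (i % 16 + 1) := by ring
        _ ≤ W * 16 := Nat.mul_le_mul_left _ (by omega)
        _ = 16 * W := by ring
  · simp [hs]

namespace VTab

variable (T : VTab)

/-- Look-up for canonical labelled mask. -/
noncomputable def look (M t i m : Nat) : Nat :=
  fc (T.nc t) fun n =>
  pk (T.TT t) T.W M (Nat.add (Nat.mul (Nat.add (Nat.mul (Nat.add (Nat.mul i n)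
    (T.cl t (Nat.land (Nat.shiftRight m 4) 63))) n) (T.cl t (Nat.land (Nat.shiftRight m 10) 63)))
    n) (T.cl t (Nat.land (Nat.shiftRight m 20) 63)))

/-- Kernel version of the integrand, with offset; `M = 2 ^ W - 1`. -/
noncomputable def gVK (M m : Nat) : Nat :=
  fc (T.cwv (Nat.land m 15)) fun c =>
  Bool.rec (motive := fun _ => Nat)
    (fc (awN 6 (Nat.shiftRight c 4) m) fun m' => T.look M (Nat.land c 15) (Nat.shiftRight m' 34) m')
    T.OFF (Nat.beq (Nat.land c 15) 0)

/-- Kernel version of the slope, with offset. -/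
noncomputable def gAK (M m : Nat) : Nat :=
  fc (T.cwv (Nat.land m 15)) fun c =>
  Bool.rec (motive := fun _ => Nat)
    (fc (awN 6 (Nat.shiftRight c 4) m) fun m' => T.look M (Nat.land c 15) 2 m')
    T.OFF (Nat.beq (Nat.land c 15) 0)

/-- Sum of the multipliers. -/
def mus (t : Nat) : Nat := ((T.TM t).map fun k => k.2.2).sum

/-- Sizes of the numbers. -/
def ckS : Bool := Nat.blt 0 T.PA && (Nat.ble T.PB T.PA && (List.range T.NT).all fun t =>
  Nat.ble (8 * (T.PA + T.PB) * T.mus t) T.OFF &&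
    Nat.blt (T.OFF + 8 * (T.PA + T.PB) * T.mus t) (2 ^ T.W))

/-- The table of the type `t` is correct. -/
noncomputable def ckT (t : Nat) : Bool :=
  chkT (Nat.mul 16 T.W) (T.TT t) 0
    (Nat.div (Nat.add (Nat.mul 3 (Nat.mul (T.nc t) (Nat.mul (T.nc t) (T.nc t)))) 15) 16)
    (num T.PA T.PB T.W T.OFF (T.nc t) (T.TM t))

/-- Checks of the tables of values. -/
structure Good2 (M : Nat) : Prop where
  m : M = 2 ^ T.W - 1
  s : T.ckS = true
  t : ∀ t < T.NT, t ≠ 0 → T.ckT t = true

variable {T} {M : Nat}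

theorem Good2.sz (h : T.Good2 M) {t : Nat} (ht : t < T.NT) :
    0 < T.PA ∧ T.PB ≤ T.PA ∧ 8 * (T.PA + T.PB) * T.mus t ≤ T.OFF ∧
      T.OFF + 8 * (T.PA + T.PB) * T.mus t < 2 ^ T.W := by
  have := h.s
  simp only [ckS, List.all_eq_true, List.mem_range, Bool.and_eq_true] at this
  obtain ⟨h3, h4, h5⟩ := this
  obtain ⟨h1, h2⟩ := h5 t ht
  exact ⟨Nat.blt_eq ▸ h3, Nat.ble_eq ▸ h4, Nat.ble_eq ▸ h1, Nat.blt_eq ▸ h2⟩

theorem look_eq (h1 : T.Good) (h2 : T.Good2 M) {t : Nat} (ht : t < T.NT) (h0 : t ≠ 0) (i m : Nat)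
    (hi : i < 3) : T.look M t i m =
      vo T.PA T.PB T.OFF i (T.TM t) (T.cl t (pa m)) (T.cl t (pb m)) (T.cl t (pc m)) := by
  obtain ⟨q1, q2, s1, s2⟩ := h2.sz ht
  have ht2 := h2.t t ht h0
  have ea : Nat.land (Nat.shiftRight m 4) 63 = pa m := by
    rw [shift_div]; exact land_mod _ 6
  have eb : Nat.land (Nat.shiftRight m 10) 63 = pb m := by
    rw [shift_div]; exact land_mod _ 6
  have ec : Nat.land (Nat.shiftRight m 20) 63 = pc m := by
    rw [shift_div]; exact land_mod _ 6
  have la := h1.cl_lt ht (pa_lt m)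
  have lb := h1.cl_lt ht (pb_lt m)
  have lc := h1.cl_lt ht (pc_lt m)
  rw [look, fc_eq, ea, eb, ec]
  set n := T.nc t with hn
  set a := T.cl t (pa m)
  set b := T.cl t (pb m)
  set c := T.cl t (pc m)
  simp only [Nat.add_eq, Nat.mul_eq]
  have hidx : ((i * n + a) * n + b) * n + c < 3 * (n * (n * n)) := by
    have k1 : i * n + a < 3 * n := by
      calc i * n + a < i * n + n := by omega
        _ = (i + 1) * n := by ring
        _ ≤ 3 * n := Nat.mul_le_mul_right _ (by omega)
    have k2 : (i * n + a) * n + b < 3 * n * n := by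
      calc (i * n + a) * n + b < (i * n + a) * n + n := by omega
        _ = (i * n + a + 1) * n := by ring
        _ ≤ 3 * n * n := Nat.mul_le_mul_right _ k1
    calc ((i * n + a) * n + b) * n + c < ((i * n + a) * n + b) * n + n := by omega
      _ = ((i * n + a) * n + b + 1) * n := by ring
      _ ≤ 3 * n * n * n := Nat.mul_le_mul_right _ k2
      _ = 3 * (n * (n * n)) := by ring
  refine Nat.eq_of_testBit_eq fun s => ?_
  have hlv : ((i * n + a) * n + b) * n + c <
      16 * Nat.div (Nat.add (Nat.mul 3 (Nat.mul n (Nat.mul n n))) 15) 16 := by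
    change _ < 16 * ((3 * (n * (n * n)) + 15) / 16)
    omega
  rw [pk_bit h2.m ht2 hlv]
  obtain ⟨v1, -⟩ := vo_lt T.PA T.PB T.W T.OFF i (T.TM t) q1 q2 s1 s2 a b c
  by_cases hs : s < T.W
  · rw [num_bit T.PA T.PB T.W T.OFF n (T.TM t) q1 q2 s1 s2 hi la lb lc hs]
    simp [hs]
  · rw [Nat.testBit_eq_false_of_lt (lt_of_lt_of_le v1
      (Nat.pow_le_pow_right (by norm_num) (by omega)))]
    simp [hs]

theorem LV_nil (p q i a b c : Nat) : LV p q i [] a b c = 0 := by
  unfold LV kv LX
  split_ifs <;> simp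

theorem kx_eq (h1 : T.Good) (h2 : T.Good2 M) (m i : Nat) (j : Nat → Nat)
    (hj : ∀ m' : Nat, m' = awl (T.wr (r4 m)) m → j m' = i) (hi : i < 3) :
    ((fc (T.cwv (Nat.land m 15)) fun c =>
      Bool.rec (motive := fun _ => Nat)
        (fc (awN 6 (Nat.shiftRight c 4) m) fun m' => T.look M (Nat.land c 15) (j m') m')
        T.OFF (Nat.beq (Nat.land c 15) 0) : Nat) : ℤ) = T.GX i m + T.OFF := by
  have er : Nat.land m 15 = r4 m := land_mod m 4
  rw [er, fc_eq, fc_eq, awN_eq]
  change ((Bool.rec (motive := fun _ => Nat)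
    (T.look M (T.ty (r4 m)) (j (awl (T.wr (r4 m)) m)) (awl (T.wr (r4 m)) m))
    T.OFF (Nat.beq (T.ty (r4 m)) 0) : Nat) : ℤ) = _
  rw [hj _ rfl]
  cases hb : Nat.beq (T.ty (r4 m)) 0
  · have h0 : T.ty (r4 m) ≠ 0 := by
      intro h
      rw [h] at hb
      exact absurd hb (by simp)
    have hty := h1.tyr (r4_lt m)
    have hw := h1.w3r (r4_lt m)
    change ((T.look M (T.ty (r4 m)) i (awl (T.wr (r4 m)) m) : Nat) : ℤ) = _
    rw [look_eq h1 h2 hty h0 i _ hi]
    obtain ⟨q1, q2, s1, s2⟩ := h2.sz hty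
    rw [(vo_lt T.PA T.PB T.W T.OFF i _ q1 q2 s1 s2 _ _ _).2, pa_awl _ _ hw, pb_awl _ _ hw, pc_awl _ _ hw]
    rfl
  · have h0 := Nat.eq_of_beq_eq_true hb
    change ((T.OFF : Nat) : ℤ) = _
    rw [GX, h0, h1.c0, LV_nil, zero_add]

theorem gVK_eq (h1 : T.Good) (h2 : T.Good2 M) {m : Nat} (hm : m < 2 ^ 35) :
    ((T.gVK M m : Nat) : ℤ) = T.GV m + T.OFF := by
  refine kx_eq h1 h2 m _ (fun m' => Nat.shiftRight m' 34) ?_ ?_
  · rintro m' rfl
    have hw := h1.w3r (r4_lt m)
    have h3 := b34_awl _ m hw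
    rw [← h3]
    have h4 : awl (T.wr (r4 m)) m < 2 ^ 35 := awl_lt _ hm
    generalize awl (T.wr (r4 m)) m = x at *
    have h5 : Nat.shiftRight x 34 = x >>> 34 := rfl
    have h6 : x >>> 34 < 2 := by
      rw [Nat.shiftRight_eq_div_pow]
      omega
    rw [h5, Nat.testBit, Nat.one_and_eq_mod_two, Nat.mod_eq_of_lt h6]
    interval_cases (x >>> 34) <;> rfl
  · cases m.testBit 34 <;> simp

theorem gAK_eq (h1 : T.Good) (h2 : T.Good2 M) (m : Nat) :
    ((T.gAK M m : Nat) : ℤ) = T.GA m + T.OFF :=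
  kx_eq h1 h2 m 2 (fun _ => 2) (fun _ _ => rfl) (by norm_num)

end VTab

end KC
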